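import Pool.Agent.ACK.StmtsA

/-!
# Squad ACK, row MRA: two chains which are adjacent in both passages are one chain
-/

set_option autoImplicit false

namespace Pool.Agent.ACK.H36

open Pool.Agent.ACK

theorem split_at (x : ℕ) (G1 r A1 r' : List ℕ) (hA : x ∉ A1)
    (h : G1 ++ x :: r = A1 ++ x :: r') :
    (G1 = A1 ∧ r = r') ∨ ∃ G0, G1 = A1 ++ x :: G0 ∧ r' = G0 ++ x :: r := by
  induction A1 generalizing G1 with
  | nil =>
    cases G1 with
    | nil =>
      simp only [List.nil_append, List.cons.injEq, true_and] at h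
      exact Or.inl ⟨rfl, h⟩
    | cons g G0 =>
      simp only [List.cons_append, List.nil_append, List.cons.injEq] at h
      right
      refine ⟨G0, ?_, h.2.symm⟩
      rw [h.1]
      rfl
  | cons a A ih =>
    cases G1 with
    | nil =>
      simp only [List.cons_append, List.nil_append, List.cons.injEq] at h
      exact absurd (h.1 ▸ List.mem_cons_self) hA
    | cons g G0 =>
      simp only [List.cons_append, List.cons.injEq] at h
      rcases ih G0 (fun hh => hA (List.mem_cons_of_mem _ hh)) h.2 with ⟨h1, h2⟩ | ⟨G, h1, h2⟩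
      · left
        exact ⟨by rw [h.1, h1], h2⟩
      · right
        exact ⟨G, by rw [h.1, h1]; rfl, h2⟩

theorem last_eq (A B : List ℕ) (a b : ℕ) (h : A ++ [a] = B ++ [b]) : a = b := by
  have h1 := (List.append_inj' h rfl).2
  simpa using h1

theorem mem_bk (C : ℕ → List ℕ) (t : Tk) (z : ℕ) : z ∈ bk C t ↔ z ∈ C t.1 := by
  unfold bk
  split_ifs
  · exact List.mem_reverse
  · exact Iff.rfl

theorem bk_ne (C : ℕ → List ℕ) (t : Tk) (h : C t.1 ≠ []) : bk C t ≠ [] := by
  unfold bk
  split_ifs
  · simpa using h
  · exact h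

theorem bk_nodup (C : ℕ → List ℕ) (t : Tk) (h : (C t.1).Nodup) : (bk C t).Nodup := by
  unfold bk
  split_ifs
  · exact List.nodup_reverse.2 h
  · exact h

theorem bk_rev (C : ℕ → List ℕ) (t u : Tk) (h1 : t.1 = u.1) (h2 : t.2 ≠ u.2) :
    bk C t = (bk C u).reverse := by
  unfold bk
  rw [h1]
  cases ht : t.2 <;> cases hu : u.2
  · exact absurd (ht.trans hu.symm) h2
  · simp
  · simp
  · exact absurd (ht.trans hu.symm) h2

theorem BL_cons (C : ℕ → List ℕ) (t : Tk) (b : List Tk) : BL C (t :: b) = bk C t ++ BL C b := by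
  simp [BL]

theorem BL_nil (C : ℕ → List ℕ) : BL C [] = [] := by
  simp [BL]

theorem BL_app (C : ℕ → List ℕ) (a b : List Tk) : BL C (a ++ b) = BL C a ++ BL C b := by
  simp [BL]

theorem mem_BL (C : ℕ → List ℕ) (b : List Tk) (z : ℕ) : z ∈ BL C b ↔ ∃ t ∈ b, z ∈ C t.1 := by
  unfold BL
  rw [List.mem_flatMap]
  constructor
  · rintro ⟨t, h1, h2⟩
    exact ⟨t, h1, (mem_bk C t z).1 h2⟩
  · rintro ⟨t, h1, h2⟩
    exact ⟨t, h1, (mem_bk C t z).2 h2⟩

theorem BL_upd (C : ℕ → List ℕ) (e : ℕ) (L : List ℕ) (b : List Tk) (h : ∀ v ∈ b, v.1 ≠ e) :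
    BL (Function.update C e L) b = BL C b := by
  induction b with
  | nil => rfl
  | cons v b ih =>
    rw [BL_cons, BL_cons, ih (fun w hw => h w (List.mem_cons_of_mem _ hw))]
    have h1 := h v List.mem_cons_self
    unfold bk
    rw [Function.update_of_ne h1]

theorem sub_iff (b : List Tk) (v v' : Tk) :
    List.Sublist [v, v'] b ↔ ∃ P Q R, b = P ++ v :: (Q ++ v' :: R) := by
  constructor
  · intro h
    rw [List.cons_sublist_iff] at h
    obtain ⟨r1, r2, h1, h2, h3⟩ := h
    rw [List.singleton_sublist] at h3
    obtain ⟨P, A, rfl⟩ := List.append_of_mem h2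
    obtain ⟨B, R, rfl⟩ := List.append_of_mem h3
    refine ⟨P, A ++ B, R, ?_⟩
    rw [h1]
    simp [List.append_assoc]
  · rintro ⟨P, Q, R, rfl⟩
    refine List.Sublist.trans ?_ (List.sublist_append_right P _)
    refine List.Sublist.cons_cons v ?_
    refine List.Sublist.trans ?_ (List.sublist_append_right Q _)
    refine List.Sublist.cons_cons v' ?_
    exact List.nil_sublist R

theorem ty_iff (C : ℕ → List ℕ) (b : List Tk) (s : ℕ → Bool) :
    Ty C b s ↔ ∀ v v' : Tk, List.Sublist [v, v'] b → v.1 = v'.1 →
      ∀ x ∈ C v.1, (s x = false ↔ v.2 = v'.2) := by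
  constructor
  · intro h v v' hs h1
    obtain ⟨P, Q, R, hb⟩ := (sub_iff b v v').1 hs
    exact h P Q R v v' hb h1
  · intro h P Q R v v' hb h1
    exact h v v' ((sub_iff b v v').2 ⟨P, Q, R, hb⟩) h1

theorem fst_split (e : ℕ) (β : List Tk) (h : (β.map Prod.fst).count e = 1) :
    ∃ (P : List Tk) (u : Tk) (Q : List Tk), β = P ++ u :: Q ∧ u.1 = e ∧ (∀ v ∈ P, v.1 ≠ e) ∧
      ∀ v ∈ Q, v.1 ≠ e := by
  have h1 : e ∈ β.map Prod.fst := List.count_pos_iff.1 (by omega)
  obtain ⟨u, hu, hue⟩ := List.mem_map.1 h1
  obtain ⟨P, Q, rfl⟩ := List.append_of_mem hu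
  refine ⟨P, u, Q, rfl, hue, ?_, ?_⟩
  · intro v hv hve
    have h2 : 0 < (P.map Prod.fst).count e := List.count_pos_iff.2 (List.mem_map.2 ⟨v, hv, hve⟩)
    rw [List.map_append, List.map_cons, hue, List.count_append, List.count_cons_self] at h
    omega
  · intro v hv hve
    have h2 : 0 < (Q.map Prod.fst).count e := List.count_pos_iff.2 (List.mem_map.2 ⟨v, hv, hve⟩)
    rw [List.map_append, List.map_cons, hue, List.count_append, List.count_cons_self] at h
    omega

theorem fst_none (e : ℕ) (β : List Tk) (h : (β.map Prod.fst).count e = 0) :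
    ∀ v ∈ β, v.1 ≠ e := by
  intro v hv hve
  have h2 : 0 < (β.map Prod.fst).count e := List.count_pos_iff.2 (List.mem_map.2 ⟨v, hv, hve⟩)
  omega

/-- the final step -/
theorem fin (C : ℕ → List ℕ) (β : List Tk) (t t' : Tk) (s : ℕ → Bool)
    (hC : CW C (t' :: (β ++ [t]))) (hT : Ty C (t' :: (β ++ [t])) s) (P1 P3 : List Tk) (w w' : Tk)
    (δ : Bool) (hβ : β = P1 ++ w :: w' :: P3) (hef : t.1 ≠ t'.1) (hw : w.1 = t.1 ∨ w.1 = t'.1)
    (hw' : w'.1 = t.1 ∨ w'.1 = t'.1) (h1e : ∀ v ∈ P1, v.1 ≠ t.1) (h1f : ∀ v ∈ P1, v.1 ≠ t'.1)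
    (h3e : ∀ v ∈ P3, v.1 ≠ t.1) (h3f : ∀ v ∈ P3, v.1 ≠ t'.1)
    (hK : bk C w ++ bk C w' = if δ then (bk C t ++ bk C t').reverse else bk C t ++ bk C t')
    (hs : ∀ z, z ∈ C t.1 ∨ z ∈ C t'.1 → s z = δ) :
    ∃ (C' : ℕ → List ℕ) (b' : List Tk), CW C' b' ∧ Ty C' b' s ∧
      BL C (t' :: (β ++ [t])) ~r BL C' b' ∧ b'.length < β.length + 2 := by
  have hPb : ∀ v, (v ∈ P1 ∨ v ∈ P3) → v ∈ t' :: (β ++ [t]) := by
    intro v hv
    rw [hβ]
    rcases hv with hv | hv
    · exact List.mem_cons_of_mem _ (List.mem_append_left _ (List.mem_append_left _ hv))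
    · exact List.mem_cons_of_mem _ (List.mem_append_left _ (List.mem_append_right _
        (List.mem_cons_of_mem _ (List.mem_cons_of_mem _ hv))))
  have htb : t ∈ t' :: (β ++ [t]) :=
    List.mem_cons_of_mem _ (List.mem_append_right _ List.mem_cons_self)
  have htb' : t' ∈ t' :: (β ++ [t]) := List.mem_cons_self
  obtain ⟨C', hC'⟩ : ∃ C' : ℕ → List ℕ, C' = Function.update C t.1 (bk C t ++ bk C t') := ⟨_, rfl⟩
  obtain ⟨b', hb'⟩ : ∃ b' : List Tk, b' = (t.1, false) :: (P1 ++ (t.1, δ) :: P3) := ⟨_, rfl⟩
  have hCe : C' t.1 = bk C t ++ bk C t' := by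
    rw [hC', Function.update_self]
  have hCn : ∀ z, z ≠ t.1 → C' z = C z := by
    intro z hz
    rw [hC', Function.update_of_ne hz]
  have hmem : ∀ v ∈ b', v.1 = t.1 ∨ (v.1 ≠ t.1 ∧ v.1 ≠ t'.1 ∧ v ∈ t' :: (β ++ [t])) := by
    intro v hv
    rw [hb'] at hv
    rcases List.mem_cons.1 hv with rfl | hv
    · exact Or.inl rfl
    rcases List.mem_append.1 hv with hv | hv
    · exact Or.inr ⟨h1e v hv, h1f v hv, hPb v (Or.inl hv)⟩
    rcases List.mem_cons.1 hv with rfl | hv
    · exact Or.inl rfl
    · exact Or.inr ⟨h3e v hv, h3f v hv, hPb v (Or.inr hv)⟩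
  have hEF : ∀ v ∈ t' :: (β ++ [t]), v.1 ≠ t.1 → v.1 ≠ t'.1 →
      List.Disjoint (bk C t ++ bk C t') (C v.1) := by
    intro v hv h1 h2
    rw [List.disjoint_left]
    intro z hz hzv
    rcases List.mem_append.1 hz with hz | hz
    · exact (List.disjoint_left.1 (hC.dj t htb v hv (Ne.symm h1))) ((mem_bk C t z).1 hz) hzv
    · exact (List.disjoint_left.1 (hC.dj t' htb' v hv (Ne.symm h2))) ((mem_bk C t' z).1 hz) hzv
  refine ⟨C', b', ⟨?_, ?_, ?_, ?_⟩, ?_, ?_, ?_⟩
  · -- tw
    have hc1 : (P1.map Prod.fst).count t.1 = 0 := by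
      rw [List.count_eq_zero]
      intro h
      obtain ⟨v, hv, hve⟩ := List.mem_map.1 h
      exact h1e v hv hve
    have hc3 : (P3.map Prod.fst).count t.1 = 0 := by
      rw [List.count_eq_zero]
      intro h
      obtain ⟨v, hv, hve⟩ := List.mem_map.1 h
      exact h3e v hv hve
    intro z hz
    by_cases hze : z = t.1
    · subst hze
      rw [hb']
      simp only [List.map_cons, List.map_append, List.count_cons_self, List.count_append, hc1, hc3]
    · obtain ⟨v, hv, hvz⟩ := List.mem_map.1 hz
      rcases hmem v hv with h | ⟨-, h2, h3⟩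
      · exact absurd (hvz.symm.trans h) hze
      · have hzf : z ≠ t'.1 := by
          rw [← hvz]
          exact h2
        have h4 := hC.tw z (by rw [← hvz]; exact List.mem_map_of_mem h3)
        rw [hβ] at h4
        have hzw : w.1 ≠ z := by
          rcases hw with h | h
          · rw [h]; exact Ne.symm hze
          · rw [h]; exact Ne.symm hzf
        have hzw' : w'.1 ≠ z := by
          rcases hw' with h | h
          · rw [h]; exact Ne.symm hze
          · rw [h]; exact Ne.symm hzf
        rw [hb']
        simp only [List.map_cons, List.map_append, List.map_nil, List.count_append,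
          List.count_cons_of_ne hzw, List.count_cons_of_ne hzw',
          List.count_cons_of_ne (Ne.symm hze), List.count_cons_of_ne (Ne.symm hzf),
          List.count_nil] at h4 ⊢
        omega
  · -- ne
    intro v hv
    rcases hmem v hv with h | ⟨h1, h2, h3⟩
    · rw [h, hCe]
      intro h4
      exact bk_ne C t (hC.ne t htb) (List.append_eq_nil_iff.1 h4).1
    · rw [hCn _ h1]
      exact hC.ne v h3
  · -- nd
    intro v hv
    rcases hmem v hv with h | ⟨h1, h2, h3⟩
    · rw [h, hCe]
      apply List.Nodup.append (bk_nodup C t (hC.nd t htb)) (bk_nodup C t' (hC.nd t' htb'))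
      rw [List.disjoint_left]
      intro z h4 h5
      exact (List.disjoint_left.1 (hC.dj t htb t' htb' hef)) ((mem_bk C t z).1 h4)
        ((mem_bk C t' z).1 h5)
    · rw [hCn _ h1]
      exact hC.nd v h3
  · -- dj
    intro v hv v' hv' hvv
    rcases hmem v hv with h | ⟨h1, h2, h3⟩
    · rcases hmem v' hv' with h' | ⟨h1', h2', h3'⟩
      · exact absurd (h.trans h'.symm) hvv
      · rw [h, hCe, hCn _ h1']
        exact hEF v' h3' h1' h2'
    · rcases hmem v' hv' with h' | ⟨h1', h2', h3'⟩
      · rw [h', hCe, hCn _ h1]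
        exact (hEF v h3 h1 h2).symm
      · rw [hCn _ h1, hCn _ h1']
        exact hC.dj v h3 v' h3' hvv
  · -- Ty
    rw [ty_iff] at hT ⊢
    intro v v' hvs hvv x hx
    by_cases hve : v.1 = t.1
    · have h1 := hvs.filter (fun a : Tk => decide (a.1 = t.1))
      have h2 : b'.filter (fun a : Tk => decide (a.1 = t.1)) = [(t.1, false), (t.1, δ)] := by
        rw [hb']
        have h3 : P1.filter (fun a : Tk => decide (a.1 = t.1)) = [] := by
          rw [List.filter_eq_nil_iff]
          intro a ha
          simpa using h1e a ha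
        have h4 : P3.filter (fun a : Tk => decide (a.1 = t.1)) = [] := by
          rw [List.filter_eq_nil_iff]
          intro a ha
          simpa using h3e a ha
        simp [List.filter_cons, List.filter_append, h3, h4]
      have h3 : [v, v'].filter (fun a : Tk => decide (a.1 = t.1)) = [v, v'] := by
        have h4 : v'.1 = t.1 := hvv.symm.trans hve
        simp [List.filter_cons, hve, h4]
      rw [h2, h3] at h1
      have h4 := h1.eq_of_length rfl
      simp only [List.cons.injEq, and_true] at h4
      rw [h4.1, h4.2]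
      rw [hve, hCe] at hx
      have h5 : s x = δ := by
        apply hs
        rcases List.mem_append.1 hx with h | h
        · exact Or.inl ((mem_bk C t x).1 h)
        · exact Or.inr ((mem_bk C t' x).1 h)
      rw [h5]
      exact eq_comm
    · have h1 := hvs.filter (fun a : Tk => decide (a.1 ≠ t.1))
      have h2 : b'.filter (fun a : Tk => decide (a.1 ≠ t.1)) = P1 ++ P3 := by
        rw [hb']
        have h3 : P1.filter (fun a : Tk => decide (a.1 ≠ t.1)) = P1 := by
          rw [List.filter_eq_self]
          intro a ha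
          simpa using h1e a ha
        have h4 : P3.filter (fun a : Tk => decide (a.1 ≠ t.1)) = P3 := by
          rw [List.filter_eq_self]
          intro a ha
          simpa using h3e a ha
        rw [List.filter_cons, List.filter_append, List.filter_cons, h3, h4]
        simp
      have h3 : [v, v'].filter (fun a : Tk => decide (a.1 ≠ t.1)) = [v, v'] := by
        have h4 : v'.1 ≠ t.1 := hvv ▸ hve
        simp [List.filter_cons, hve, h4]
      rw [h2, h3] at h1
      have h4 : List.Sublist (P1 ++ P3) (t' :: (β ++ [t])) := by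
        rw [hβ]
        apply List.Sublist.cons
        refine List.Sublist.trans ?_ (List.sublist_append_left _ _)
        exact List.Sublist.append (List.Sublist.refl P1)
          (List.Sublist.cons _ (List.Sublist.cons _ (List.Sublist.refl P3)))
      rw [hCn _ hve] at hx
      exact hT v v' (h1.trans h4) hvv x hx
  · -- rotation
    have h1 : BL C' b' = (bk C t ++ bk C t') ++ (BL C P1 ++ ((bk C w ++ bk C w') ++ BL C P3)) := by
      rw [hb', BL_cons, BL_app, BL_cons, hC', BL_upd _ _ _ _ h1e, BL_upd _ _ _ _ h3e, ← hC', hK]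
      have h2 : bk C' (t.1, false) = bk C t ++ bk C t' := by
        show (if false = true then (C' t.1).reverse else C' t.1) = _
        rw [hCe]
        simp
      have h3 : bk C' (t.1, δ) =
          if δ then (bk C t ++ bk C t').reverse else bk C t ++ bk C t' := by
        show (if δ = true then (C' t.1).reverse else C' t.1) = _
        rw [hCe]
      rw [h2, h3]
    have h2 : BL C (t' :: (β ++ [t])) =
        (bk C t' ++ (BL C P1 ++ ((bk C w ++ bk C w') ++ BL C P3))) ++ bk C t := by
      rw [hβ, BL_cons, BL_app, BL_app, BL_cons, BL_cons, BL_cons, BL_nil]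
      simp [List.append_assoc]
    rw [h1, h2, List.append_assoc (bk C t)]
    exact List.isRotated_append
  · rw [hb', hβ]
    simp

theorem mra (_cwg : CwgStmt) : MraStmt := by
  intro C β t t' s x y M G1 G2 hC hT hβ2 hxy hG1 hG2 hl hcase
  have htb : t ∈ t' :: (β ++ [t]) :=
    List.mem_cons_of_mem _ (List.mem_append_right _ List.mem_cons_self)
  have htb' : t' ∈ t' :: (β ++ [t]) := List.mem_cons_self
  have hβb : ∀ v ∈ β, v ∈ t' :: (β ++ [t]) := fun v hv =>
    List.mem_cons_of_mem _ (List.mem_append_left _ hv)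
  have hBL : BL C (t' :: (β ++ [t])) = bk C t' ++ (BL C β ++ bk C t) := by
    rw [BL_cons, BL_app, BL_cons, BL_nil, List.append_nil]
  rw [hBL] at hl hcase
  obtain ⟨F0, hF⟩ : ∃ F0, bk C t' = y :: F0 := by
    have h := bk_ne C t' (hC.ne t' htb')
    cases hb : bk C t' with
    | nil => exact absurd hb h
    | cons a F0 =>
      rw [hb] at hl
      simp only [List.cons_append, List.cons.injEq] at hl
      exact ⟨F0, by rw [hl.1]⟩
  obtain ⟨E0, hE⟩ : ∃ E0, bk C t = E0 ++ [x] := by
    have h := bk_ne C t (hC.ne t htb)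
    rcases List.eq_nil_or_concat (bk C t) with hb | ⟨E0, a, hb⟩
    · exact absurd hb h
    · refine ⟨E0, ?_⟩
      rw [List.concat_eq_append] at hb
      rw [hb] at hl ⊢
      have h1 : (bk C t' ++ (BL C β ++ E0)) ++ [a] = (y :: M) ++ [x] := by
        rw [List.cons_append, ← hl]
        simp [List.append_assoc]
      rw [last_eq _ _ _ _ h1]
  have hxE : x ∈ C t.1 := (mem_bk C t x).1 (by rw [hE]; simp)
  have hyF : y ∈ C t'.1 := (mem_bk C t' y).1 (by rw [hF]; simp)
  have hEnd : (bk C t).Nodup := bk_nodup C t (hC.nd t htb)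
  have hFnd : (bk C t').Nodup := bk_nodup C t' (hC.nd t' htb')
  have hxE0 : x ∉ E0 := by
    intro h
    rw [hE, List.nodup_append] at hEnd
    exact hEnd.2.2 x h x (by simp) rfl
  have hyF0 : y ∉ F0 := by
    intro h
    rw [hF, List.nodup_cons] at hFnd
    exact hFnd.1 h
  -- no letter of the chain `t.1` in blocks of other chains
  have hout : ∀ (a : Tk) (z : ℕ) (L : List Tk), a ∈ t' :: (β ++ [t]) → z ∈ C a.1 →
      (∀ v ∈ L, v ∈ t' :: (β ++ [t])) → (∀ v ∈ L, v.1 ≠ a.1) → z ∉ BL C L := by
    intro a z L ha hz h1 h2 h3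
    obtain ⟨v, hv, hzv⟩ := (mem_BL C L z).1 h3
    exact (List.disjoint_left.1 (hC.dj a ha v (h1 v hv) (Ne.symm (h2 v hv)))) hz hzv
  have hch : ∀ (a v : Tk) (z : ℕ), a ∈ t' :: (β ++ [t]) → v ∈ t' :: (β ++ [t]) → z ∈ C a.1 →
      z ∈ C v.1 → v.1 = a.1 := by
    intro a v z ha hv h1 h2
    by_contra h3
    exact (List.disjoint_left.1 (hC.dj a ha v hv (Ne.symm h3))) h1 h2
  have hnil : ∀ (G0 r : List ℕ), [] = G0 ++ x :: r → False := by
    intro G0 r h
    have h1 := congrArg List.length h
    simp at h1
  -- (a)
  have hef : t.1 ≠ t'.1 := by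
    intro hef
    have hcnt : (β.map Prod.fst).count t.1 = 0 := by
      have h1 := hC.tw t.1 (List.mem_map_of_mem htb)
      rw [List.map_cons, List.map_append, List.map_cons, List.map_nil, ← hef,
        List.count_cons_self, List.count_append, List.count_cons_self, List.count_nil] at h1
      omega
    have hno := fst_none t.1 β hcnt
    by_cases h2 : t.2 = t'.2
    · have htt : t = t' := Prod.ext hef h2
      have hsx : s x = false := by
        have h3 := hT [] β [] t' t rfl hef.symm x (by rw [← hef]; exact hxE)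
        exact h3.2 h2.symm
      rcases hcase with ⟨-, -, hc⟩ | ⟨h3, -, -⟩
      · rw [← htt, hE] at hc
        have h4 : G1 ++ x :: (y :: G2) = E0 ++ x :: (BL C β ++ (E0 ++ [x])) := by
          rw [← hc]
          simp [List.append_assoc]
        have hxβ : x ∉ BL C β := hout t x β htb hxE hβb hno
        rcases split_at x G1 (y :: G2) E0 _ hxE0 h4 with ⟨-, h5⟩ | ⟨G0, -, h5⟩
        · cases β with
          | nil => simp at hβ2
          | cons v β0 =>
            have hvb := hβb v List.mem_cons_self
            rw [BL_cons] at h5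
            cases hv : bk C v with
            | nil => exact bk_ne C v (hC.ne v hvb) hv
            | cons a A =>
              rw [hv] at h5
              simp only [List.cons_append, List.cons.injEq] at h5
              have h6 : y ∈ C v.1 := (mem_bk C v y).1 (by rw [hv, h5.1]; exact List.mem_cons_self)
              exact hno v List.mem_cons_self ((hch t' v y htb' hvb hyF h6).trans hef.symm)
        · have h6 : x ∉ BL C β ++ E0 := by
            intro h
            rcases List.mem_append.1 h with h | h
            · exact hxβ h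
            · exact hxE0 h
          have h7 : G0 ++ x :: (y :: G2) = (BL C β ++ E0) ++ x :: [] := by
            rw [← h5]
            simp [List.append_assoc]
          rcases split_at x G0 (y :: G2) _ _ h6 h7 with ⟨-, h8⟩ | ⟨G0', -, h8⟩
          · cases h8
          · exact hnil _ _ h8
      · rw [hsx] at h3
        cases h3
    · have h3 := bk_rev C t t' hef h2
      rw [hE, hF, List.reverse_cons] at h3
      exact hxy (last_eq _ _ _ _ h3)
  have hce : (β.map Prod.fst).count t.1 = 1 := by
    have h1 := hC.tw t.1 (List.mem_map_of_mem htb)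
    rw [List.map_cons, List.map_append, List.map_cons, List.map_nil,
      List.count_cons_of_ne (Ne.symm hef), List.count_append, List.count_cons_self,
      List.count_nil] at h1
    omega
  have hcf : (β.map Prod.fst).count t'.1 = 1 := by
    have h1 := hC.tw t'.1 (List.mem_map_of_mem htb')
    rw [List.map_cons, List.map_append, List.map_cons, List.map_nil,
      List.count_cons_self, List.count_append, List.count_cons_of_ne hef,
      List.count_nil] at h1
    omega
  rcases hcase with ⟨hsx, hsy, hc⟩ | ⟨hsx, hsy, hc⟩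
  · -- first case
    obtain ⟨P1, u, P2, hβ, hue, hP1, hP2⟩ := fst_split t.1 β hce
    have hub : u ∈ β := by rw [hβ]; simp
    have hTu : ∀ z ∈ C u.1, (s z = false ↔ u.2 = t.2) :=
      hT (t' :: P1) P2 [] u t (by rw [hβ]; simp [List.append_assoc]) hue
    have hut : u = t := Prod.ext hue ((hTu x (by rw [hue]; exact hxE)).1 hsx)
    rw [hut] at hβ hTu
    have hP1b : ∀ v ∈ P1, v ∈ t' :: (β ++ [t]) := fun v hv =>
      hβb v (by rw [hβ]; exact List.mem_append_left _ hv)
    have hP2b : ∀ v ∈ P2, v ∈ t' :: (β ++ [t]) := fun v hv =>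
      hβb v (by rw [hβ]; exact List.mem_append_right _ (List.mem_cons_of_mem _ hv))
    have hxP1 : x ∉ BL C P1 := hout t x P1 htb hxE hP1b hP1
    have hxP2 : x ∉ BL C P2 := hout t x P2 htb hxE hP2b hP2
    have hxF : x ∉ bk C t' := by
      intro h
      exact hef (hch t t' x htb htb' hxE ((mem_bk C t' x).1 h)).symm
    have h4 : G1 ++ x :: (y :: G2) =
        (bk C t' ++ (BL C P1 ++ E0)) ++ x :: (BL C P2 ++ (E0 ++ [x])) := by
      rw [← hc, hβ, BL_app, BL_cons, hE]
      simp [List.append_assoc]
    have h5 : x ∉ bk C t' ++ (BL C P1 ++ E0) := by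
      intro h
      rcases List.mem_append.1 h with h | h
      · exact hxF h
      rcases List.mem_append.1 h with h | h
      · exact hxP1 h
      · exact hxE0 h
    rcases split_at x G1 (y :: G2) _ _ h5 h4 with ⟨-, h6⟩ | ⟨G0, -, h6⟩
    · cases P2 with
      | nil =>
        exfalso
        rw [BL_nil, List.nil_append, ← hE] at h6
        have h7 : y ∈ C t.1 := (mem_bk C t y).1 (by rw [← h6]; exact List.mem_cons_self)
        exact hef (hch t' t y htb' htb hyF h7)
      | cons v P3 =>
        have hvb := hP2b v List.mem_cons_self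
        rw [BL_cons] at h6
        have h7 : y ∈ C v.1 := by
          cases hv : bk C v with
          | nil => exact absurd hv (bk_ne C v (hC.ne v hvb))
          | cons a A =>
            rw [hv] at h6
            simp only [List.cons_append, List.cons.injEq] at h6
            exact (mem_bk C v y).1 (by rw [hv, h6.1]; exact List.mem_cons_self)
        have h8 : v.1 = t'.1 := hch t' v y htb' hvb hyF h7
        have hTv : ∀ z ∈ C t'.1, (s z = false ↔ t'.2 = v.2) :=
          hT [] (P1 ++ [t]) (P3 ++ [t]) t' v (by rw [hβ]; simp [List.append_assoc]) h8.symm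
        have hvt : v = t' := Prod.ext h8 ((hTv y hyF).1 hsy).symm
        rw [hvt] at hβ hTv hP2
        have hcf' := hcf
        rw [hβ, List.map_append, List.map_cons, List.map_cons, List.count_append,
          List.count_cons_of_ne hef, List.count_cons_self] at hcf'
        refine fin C β t t' s hC hT P1 P3 t t' false hβ hef (Or.inl rfl) (Or.inr rfl) hP1
          (fst_none _ _ (by omega)) (fun v hv => hP2 v (List.mem_cons_of_mem _ hv))
          (fst_none _ _ (by omega)) (by simp) ?_
        rintro z (hz | hz)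
        · exact (hTu z hz).2 rfl
        · exact (hTv z hz).2 rfl
    · exfalso
      have h7 : x ∉ BL C P2 ++ E0 := by
        intro h
        rcases List.mem_append.1 h with h | h
        · exact hxP2 h
        · exact hxE0 h
      have h8 : G0 ++ x :: (y :: G2) = (BL C P2 ++ E0) ++ x :: [] := by
        rw [← h6]
        simp [List.append_assoc]
      rcases split_at x G0 (y :: G2) _ _ h7 h8 with ⟨-, h9⟩ | ⟨G0', -, h9⟩
      · cases h9
      · exact hnil _ _ h9
  · -- second case
    obtain ⟨P1, u, P2, hβ, huf, hP1, hP2⟩ := fst_split t'.1 β hcf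
    have hub : u ∈ t' :: (β ++ [t]) := hβb u (by rw [hβ]; simp)
    have hTu : ∀ z ∈ C t'.1, (s z = false ↔ t'.2 = u.2) :=
      hT [] P1 (P2 ++ [t]) t' u (by rw [hβ]; simp [List.append_assoc]) huf.symm
    have hu2 : u.2 ≠ t'.2 := by
      intro h
      have h1 := (hTu y hyF).2 h.symm
      rw [hsy] at h1
      cases h1
    have hbu : bk C u = F0.reverse ++ [y] := by
      rw [bk_rev C u t' huf hu2, hF, List.reverse_cons]
    have hP1b : ∀ v ∈ P1, v ∈ t' :: (β ++ [t]) := fun v hv =>
      hβb v (by rw [hβ]; exact List.mem_append_left _ hv)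
    have hP2b : ∀ v ∈ P2, v ∈ t' :: (β ++ [t]) := fun v hv =>
      hβb v (by rw [hβ]; exact List.mem_append_right _ (List.mem_cons_of_mem _ hv))
    have hyP1 : y ∉ BL C P1 := hout t' y P1 htb' hyF hP1b hP1
    have hyP2 : y ∉ BL C P2 := hout t' y P2 htb' hyF hP2b hP2
    have hyE : y ∉ bk C t := by
      intro h
      exact hef (hch t' t y htb' htb hyF ((mem_bk C t y).1 h))
    have h4 : G1 ++ y :: (x :: G2) = [] ++ y :: ((F0 ++ (BL C P1 ++ F0.reverse)) ++
        y :: (BL C P2 ++ bk C t)) := by
      rw [← hc, hβ, BL_app, BL_cons, hF, hbu]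
      simp [List.append_assoc]
    rcases split_at y G1 (x :: G2) [] _ (by simp) h4 with ⟨h5, -⟩ | ⟨G0, -, h5⟩
    · exact absurd h5 hG1
    · have h6 : y ∉ F0 ++ (BL C P1 ++ F0.reverse) := by
        intro h
        rcases List.mem_append.1 h with h | h
        · exact hyF0 h
        rcases List.mem_append.1 h with h | h
        · exact hyP1 h
        · exact hyF0 (List.mem_reverse.1 h)
      rcases split_at y G0 (x :: G2) _ _ h6 h5.symm with ⟨-, h7⟩ | ⟨G0', -, h7⟩
      · cases P2 with
        | nil =>
          exfalso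
          rw [BL_nil, List.nil_append, hE] at h7
          cases E0 with
          | nil =>
            simp only [List.nil_append, List.cons.injEq, true_and] at h7
            exact hG2 h7
          | cons a E1 =>
            simp only [List.cons_append, List.cons.injEq] at h7
            exact hxE0 (by rw [h7.1]; exact List.mem_cons_self)
        | cons v P3 =>
          have hvb := hP2b v List.mem_cons_self
          rw [BL_cons] at h7
          have h8 : x ∈ C v.1 := by
            cases hv : bk C v with
            | nil => exact absurd hv (bk_ne C v (hC.ne v hvb))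
            | cons a A =>
              rw [hv] at h7
              simp only [List.cons_append, List.cons.injEq] at h7
              exact (mem_bk C v x).1 (by rw [hv, h7.1]; exact List.mem_cons_self)
          have h9 : v.1 = t.1 := hch t v x htb hvb hxE h8
          have hTv : ∀ z ∈ C v.1, (s z = false ↔ v.2 = t.2) :=
            hT (t' :: (P1 ++ [u])) P3 [] v t (by rw [hβ]; simp [List.append_assoc]) h9
          have hv2 : v.2 ≠ t.2 := by
            intro h
            have h1 := (hTv x h8).2 h
            rw [hsx] at h1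
            cases h1
          have hbv : bk C v = (bk C t).reverse := bk_rev C v t h9 hv2
          have hce' := hce
          rw [hβ, List.map_append, List.map_cons, List.map_cons, List.count_append, huf, h9,
            List.count_cons_of_ne (Ne.symm hef), List.count_cons_self] at hce'
          refine fin C β t t' s hC hT P1 P3 u v true hβ hef (Or.inr huf) (Or.inl h9)
            (fst_none _ _ (by omega)) hP1 (fst_none _ _ (by omega))
            (fun v hv => hP2 v (List.mem_cons_of_mem _ hv)) ?_ ?_
          · rw [hbu, hbv, if_pos rfl, List.reverse_append, hF, List.reverse_cons]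
          · rintro z (hz | hz)
            · cases hsz : s z with
              | true => rfl
              | false => exact absurd ((hTv z (by rw [h9]; exact hz)).1 hsz) hv2
            · cases hsz : s z with
              | true => rfl
              | false => exact absurd ((hTu z hz).1 hsz).symm hu2
      · exfalso
        have h8 : y ∈ BL C P2 ++ bk C t := by
          rw [h7]
          simp
        rcases List.mem_append.1 h8 with h | h
        · exact hyP2 h
        · exact hyE h

end Pool.Agent.ACK.H36
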