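import Pool.Agent.ACK.StmtsA
import Pool.Agent.ACK.StmtsC

set_option autoImplicit false

/-! Row MTC of squad ACK: matching. -/

namespace Pool.Agent.ACK.H36

open Pool.Agent.ACK Pool.Agent.ACK.C

theorem bk_br (C : ℕ → List ℕ) (t : Tk) : bk C (br t) = (bk C t).reverse := by
  obtain ⟨e, d⟩ := t
  cases d <;> simp [bk, br]

theorem BL_rvs (C : ℕ → List ℕ) (b : List Tk) : BL C (rvs b) = (BL C b).reverse := by
  induction b with
  | nil => rfl
  | cons t b ih =>
    have h1 : rvs (t :: b) = rvs b ++ [br t] := by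
      simp [rvs]
    have h2 : BL C (rvs b ++ [br t]) = BL C (rvs b) ++ bk C (br t) := by
      simp [BL]
    have h3 : BL C (t :: b) = bk C t ++ BL C b := by
      simp [BL]
    rw [h1, h2, h3, ih, bk_br, List.reverse_append]

theorem mem_rvs (b : List Tk) (t : Tk) (h : t ∈ rvs b) : ∃ u ∈ b, u.1 = t.1 := by
  rw [rvs, List.mem_reverse, List.mem_map] at h
  obtain ⟨u, hu, rfl⟩ := h
  exact ⟨u, hu, rfl⟩

theorem fst_rvs (b : List Tk) : (rvs b).map Prod.fst = (b.map Prod.fst).reverse := by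
  rw [rvs, List.map_reverse, List.map_map]
  rfl

theorem cw_rvs (C : ℕ → List ℕ) (b : List Tk) (h : CW C b) : CW C (rvs b) := by
  refine ⟨?_, ?_, ?_, ?_⟩
  · rw [fst_rvs]
    intro x hx
    rw [List.count_reverse]
    exact h.tw x (List.mem_reverse.1 hx)
  · intro t ht
    obtain ⟨u, hu, e⟩ := mem_rvs b t ht
    rw [← e]
    exact h.ne u hu
  · intro t ht
    obtain ⟨u, hu, e⟩ := mem_rvs b t ht
    rw [← e]
    exact h.nd u hu
  · intro t ht t' ht' hne
    obtain ⟨u, hu, e⟩ := mem_rvs b t ht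
    obtain ⟨u', hu', e'⟩ := mem_rvs b t' ht'
    rw [← e, ← e'] at hne ⊢
    exact h.dj u hu u' hu' hne

theorem quot_rot (l l' : List ℕ) (h : l ~r l') : Quot.mk Mv l = Quot.mk Mv l' := by
  obtain ⟨n, rfl⟩ := h
  rw [List.rotate_eq_drop_append_take_mod]
  have h1 := Mv.rot (l.take (n % l.length)) (l.drop (n % l.length))
  rw [List.take_append_drop] at h1
  exact Quot.sound h1

theorem sy_ok (hrtk : RtkStmt) (C : ℕ → List ℕ) (b b' : List Tk) (h : CW C b) (hb : b' ∈ sy b) :
    CW C b' ∧ Quot.mk Mv (BL C b) = Quot.mk Mv (BL C b') ∧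
      (BL C b').length = (BL C b).length := by
  rw [sy, List.mem_append, List.mem_map, List.mem_map] at hb
  rcases hb with ⟨k, -, rfl⟩ | ⟨k, -, rfl⟩
  · obtain ⟨h1, h2, -⟩ := hrtk C b (b.rotate k) (fun _ => true) ⟨k, rfl⟩
    exact ⟨h2 h, quot_rot _ _ h1, (h1.perm.length_eq).symm⟩
  · obtain ⟨h1, h2, -⟩ := hrtk C (rvs b) ((rvs b).rotate k) (fun _ => true) ⟨k, rfl⟩
    refine ⟨h2 (cw_rvs C b h), ?_, ?_⟩
    · rw [← quot_rot _ _ h1, BL_rvs]
      exact Quot.sound (Mv.rev _)
    · rw [← h1.perm.length_eq, BL_rvs, List.length_reverse]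

theorem mtc (hrtk : RtkStmt) (htrn : TrnStmt) (hiso : IsoStmt) : MtcStmt := by
  intro C b b' B hcw hb' hi _
  obtain ⟨c1, c2, c3⟩ := sy_ok hrtk C b b' hcw hb'
  obtain ⟨g, φ, hg, hB⟩ := hiso b' B hi
  obtain ⟨C', d1, d2, -⟩ := htrn C b' g φ c1 hg
  have hBL : BL C' B = BL C b' := by
    rw [hB, BL, BL, List.flatMap_map]
    have hc : ∀ l : List Tk, (∀ t ∈ l, bk C' (g t.1, xor (φ t.1) t.2) = bk C t) →
        l.flatMap (fun t => bk C' (g t.1, xor (φ t.1) t.2)) = l.flatMap (bk C) := by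
      intro l
      induction l with
      | nil => intro _; rfl
      | cons t l ih =>
        intro h
        rw [List.flatMap_cons, List.flatMap_cons, h t (List.mem_cons_self ..),
          ih fun u hu => h u (List.mem_cons_of_mem _ hu)]
    exact hc b' fun t ht => (d2 t ht).1
  refine ⟨C', ?_, ?_, ?_, ?_⟩
  · rw [hB]
    exact d1
  · rw [hBL]
    exact c2
  · rw [hBL]
    exact c3
  · intro u hu
    rw [hB] at hu
    have hz : ∀ l : List Tk, u ∈ l.zip (l.map fun t => (g t.1, xor (φ t.1) t.2)) →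
        u.1 ∈ l ∧ u.2 = (g u.1.1, xor (φ u.1.1) u.1.2) := by
      intro l
      induction l with
      | nil => intro h; simp at h
      | cons t l ih =>
        intro h
        rw [List.map_cons, List.zip_cons_cons, List.mem_cons] at h
        rcases h with rfl | h
        · exact ⟨List.mem_cons_self .., rfl⟩
        · exact ⟨List.mem_cons_of_mem _ (ih h).1, (ih h).2⟩
    obtain ⟨e1, e2⟩ := hz b' hu
    rw [e2]
    exact (d2 u.1 e1).2

end Pool.Agent.ACK.H36
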